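import Pool.Agent.Helper16K9.Fast.Main

set_option autoImplicit false

/-!
# The total size and the number of multiplications differ by a power of a logarithm

Definitions: `Circuit`, `Circuit.size`, `Circuit.depth`, `Circuit.nonscalarCount` are in
`Pool.Agent.H522R2.Circuit`; `entryMM`, `ComputesMM`, `sizeForm` in `Pool.Agent.W956.KF.Defs`;
`expMat` in `Pool.Agent.W956.FF.Explicit`; `mulMM`, `SizeDepth` in
`Pool.Agent.Helper16K9.Fast.Main`.
-/

namespace Pool.Agent.Results.MP_e72dc0_lc.FewMultiplications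

open Pool.Agent.W956.KF Pool.Agent.Helper16K9.Fast
open Pool.Agent.W956.FF (expMat)

/-- Let `mulMM F m` be the least number of nonscalar multiplications of circuits over the field `F`
which compute the product of two generic `m × m` matrices (additions, scalar multiplications and
the depth are not counted). `SizeDepth F n s d` says that a circuit over `F` with at most `s` gates
computes the product of two generic `n × n` matrices in depth at most `d`. Let `τ ≥ 2`, `η > 0`.
There is a constant `κ` such that for all fields `F` and all `n ≥ 1`: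
(1) If `mulMM F m ≤ lam * m ^ τ` for all `m ≤ 2 n` (that is, `lam` is at least the maximum of the
quotients), then there are circuits of size at most `κ n ^ τ (log₂ n + 2) ^ (κ log (18 lam))` and
depth at most `κ (log₂ n + 2) ^ (1 + η)`.
(2) In particular, if `mulMM F m ≤ c * m ^ τ` for all `m`, then for all `n ≥ 1` there are circuits of
size at most `κ' n ^ τ (log₂ n + 2) ^ κ'` and of this depth; `κ'` depends only on `τ`, `η`, `c`.
(3) Over `ℂ` it suffices to assume the bound for the number `sizeForm m (expMat m)` of operations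
for the single explicit quadratic form `tr (A E_m C)` in `2 m ^ 2` variables, where `E_m` is the
matrix with the entries `exp (2 ^ ((m j + k) / m ^ 2))`. -/
theorem result (τ η : ℝ) (hτ : 2 ≤ τ) (hη : 0 < η) :
    (∃ κ : ℝ, 0 < κ ∧
      (∀ (F : Type) [Field F] (n : ℕ) (lam : ℝ), 1 ≤ n → 1 ≤ lam →
        (∀ m, 1 ≤ m → m ≤ 2 * n → (mulMM F m : ℝ) ≤ lam * (m : ℝ) ^ τ) →
        SizeDepth F n (κ * (n : ℝ) ^ τ * (Real.logb 2 n + 2) ^ (κ * Real.log (18 * lam)))
          (κ * (Real.logb 2 n + 2) ^ (1 + η))) ∧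
      (∀ (n : ℕ) (lam : ℝ), 1 ≤ n → 1 ≤ lam →
        (∀ m, 1 ≤ m → m ≤ 2 * n → (sizeForm m (expMat m) : ℝ) ≤ lam * (m : ℝ) ^ τ) →
        SizeDepth ℂ n (κ * (n : ℝ) ^ τ * (Real.logb 2 n + 2) ^ (κ * Real.log (54 * lam)))
          (κ * (Real.logb 2 n + 2) ^ (1 + η)))) ∧
    ∀ c : ℝ, ∃ κ : ℝ, ∀ (F : Type) [Field F],
      (∀ m : ℕ, (mulMM F m : ℝ) ≤ c * (m : ℝ) ^ τ) → ∀ n : ℕ, 1 ≤ n →
        SizeDepth F n (κ * (n : ℝ) ^ τ * (Real.logb 2 n + 2) ^ κ)
          (κ * (Real.logb 2 n + 2) ^ (1 + η)) := by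
  obtain ⟨κ, hκ, H⟩ := main_bound hτ hη
  have H1 : ∀ (F : Type) [Field F] (n : ℕ) (lam : ℝ), 1 ≤ n → 1 ≤ lam →
      (∀ m, 1 ≤ m → m ≤ 2 * n → (mulMM F m : ℝ) ≤ lam * (m : ℝ) ^ τ) →
      SizeDepth F n (κ * (n : ℝ) ^ τ * (Real.logb 2 n + 2) ^ (κ * Real.log (18 * lam)))
        (κ * (Real.logb 2 n + 2) ^ (1 + η)) := by
    intro F _ n lam hn hl h
    have h1 := H F n (2 * lam) hn (by linarith) (fun m hm1 hm2 => by
      have h2 : (trank F m m m : ℝ) ≤ 2 * mulMM F m := by exact_mod_cast trank_le_mul m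
      have h3 := h m hm1 hm2
      nlinarith)
    rw [show 9 * (2 * lam) = 18 * lam by ring] at h1
    exact h1
  refine ⟨⟨κ, hκ, fun F _ => H1 F, ?_⟩, ?_⟩
  · intro n lam hn hl h
    have h1 := H ℂ n (6 * lam) hn (by linarith) (fun m hm1 hm2 => by
      have h2 : (trank ℂ m m m : ℝ) ≤ 6 * sizeForm m (expMat m) := by
        exact_mod_cast (explicit_part.1 m).2.1
      have h3 := h m hm1 hm2
      nlinarith)
    rw [show 9 * (6 * lam) = 54 * lam by ring] at h1
    exact h1
  · intro c
    refine ⟨max κ (κ * Real.log (18 * max c 1)), fun F _ h n hn => ?_⟩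
    obtain ⟨C, h1, h2⟩ := H1 F n (max c 1) hn (le_max_right _ _) (fun m _ _ =>
      (h m).trans (mul_le_mul_of_nonneg_right (le_max_left _ _) (by positivity)))
    have hL : 1 ≤ Real.logb 2 n + 2 := by
      have : 0 ≤ Real.logb 2 n := Real.logb_nonneg (by norm_num) (by exact_mod_cast hn)
      linarith
    refine ⟨C, h1.trans ?_, fun i j => ?_⟩
    · refine mul_le_mul (mul_le_mul_of_nonneg_right (le_max_left _ _) (by positivity))
        (Real.rpow_le_rpow_of_exponent_le hL (le_max_right _ _)) (by positivity) (by positivity)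
    · obtain ⟨v, hv, hd⟩ := h2 i j
      exact ⟨v, hv, hd.trans (mul_le_mul_of_nonneg_right (le_max_left _ _) (by positivity))⟩

end Pool.Agent.Results.MP_e72dc0_lc.FewMultiplications
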